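import Pool.Agent.H332.HT.Defs

/-!
Project HT (helper332), page MP_eba1ef_gt: part `S_H8` (both colours in both open sectors), by
helper947.
-/

set_option autoImplicit false

namespace Pool.Agent.H947.HT

open Pool.Agent.H332.HT

theorem bound (hP : S_P) (K : Set V3) (hK : HB K) (y : V2) :
    ∃ M : ℝ, 0 < M ∧ ∀ p ∈ P K, det p y ≤ M := by
  have hc : Continuous fun p : V2 => det p y := by
    unfold det
    fun_prop
  obtain ⟨M, hM⟩ := ((hP K hK).1.image hc).bddAbove
  exact ⟨max M 1, lt_max_of_lt_right one_pos,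
    fun p hp => (hM ⟨p, hp, rfl⟩).trans (le_max_left _ _)⟩

theorem cramer (p y A : V2) : det p y • A = det A y • p + det p A • y := by
  ext
  · simp only [det, Prod.smul_fst, Prod.fst_add, smul_eq_mul]
    ring
  · simp only [det, Prod.smul_snd, Prod.snd_add, smul_eq_mul]
    ring

/-- The sector lemma. -/
theorem sector (hP : S_P) (hitv : S_itv) (hcone : S_cone) (hinw : S_inw) (h1 : S_KL1)
    (h2 : S_KL2) (K : Set V3) (hK : HB K) (a b : V2) (ha : a ∈ P K) (hb : b ∈ P K)
    (ha' : a ∉ IP K) (hb' : b ∉ IP K) (hD : 0 < det a b) (hab : (1 / 2 : ℝ) • (a - b) ∈ IP K)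
    (yp : V2) (hyp : yp ∉ IP K) (hyp1 : 0 < det a yp) (hyp2 : 0 < det b yp)
    (hypK : ((yp, 1) : V3) ∈ K)
    (ym : V2) (hym : ym ∉ IP K) (hym1 : 0 < det a ym) (hym2 : 0 < det b ym)
    (hymK : ((ym, -1) : V3) ∈ K) :
    ∃ k₀ : ℝ, 0 < k₀ ∧ ∀ k, 0 < k → k ≤ k₀ → ∀ (p : V2) (z : ℝ), ((p, z) : V3) ∈ K → p ≠ 0 →
      0 ≤ det a p → 0 ≤ det p b →
      (0 ≤ z → ((-(a + b), -k) : V3) ∈ C K (p, z)) ∧
      (z ≤ 0 → ((-(a + b), k) : V3) ∈ C K (p, z)) := by
  obtain ⟨Mp, hMp0, hMp⟩ := bound hP K hK yp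
  obtain ⟨Mm, hMm0, hMm⟩ := bound hP K hK ym
  refine ⟨det a b / (2 * (Mp + Mm)), by positivity, ?_⟩
  intro k hk hk0 p z hpz hp0 hap hpb
  rw [le_div_iff₀ (by positivity)] at hk0
  have hpP : p ∈ P K := ⟨(p, z), hpz, rfl⟩
  have hW : ∀ y, 0 < det a y → 0 < det b y → 0 < det p y := by
    intro y hy1 hy2
    have e : det a b * det p y = det p b * det a y + det a p * det b y := by
      simp only [det]
      ring
    have hpos : 0 < det p b * det a y + det a p * det b y := by
      rcases eq_or_lt_of_le hap with h | h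
      · rcases eq_or_lt_of_le hpb with h' | h'
        · exfalso
          have e2 := cramer a b p
          rw [← h, ← h', zero_smul, zero_smul, add_zero, smul_eq_zero] at e2
          rcases e2 with e2 | e2
          · exact hD.ne' e2
          · exact hp0 e2
        · have := mul_pos h' hy1
          have := mul_nonneg hap hy2.le
          linarith
      · have := mul_pos h hy2
        have := mul_nonneg hpb hy1.le
        linarith
    rw [← e] at hpos
    exact (pos_iff_pos_of_mul_pos hpos).mp hD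
  have hxi := h1 K hK a b p ha hb ha' hb' hpP hD hap hpb
  obtain ⟨k', hk'⟩ := hinw K hK a b p z hD hab hpz hp0 hap hpb hxi
  have hal : ∀ y, y ∉ IP K → 0 < det a y → 0 < det b y → det a b ≤ det a y + det b y :=
    fun y hy h3 h4 => (h2 K hK a b y ha hb hy hD h3.le h4.le).1
  have hvec : ∀ y, det p y • (-(a + b)) =
      -((det a y + det b y) • p) + (det a p - det p b) • y := by
    intro y
    ext
    · simp only [det, Prod.smul_fst, Prod.fst_add, Prod.fst_neg, smul_eq_mul]
      ring
    · simp only [det, Prod.smul_snd, Prod.snd_add, Prod.snd_neg, smul_eq_mul]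
      ring
  have hWm := hW ym hym1 hym2
  have hWp := hW yp hyp1 hyp2
  have hαm := hal ym hym hym1 hym2
  have hαp := hal yp hyp hyp1 hyp2
  have Tm := (hcone K hK p ym (-(a + b)) z (-1) (det p ym) (det a ym + det b ym)
    (det a p - det p b) hpz hymK hWm (hxi.trans hαm) (hvec ym)).2
  have Tp := (hcone K hK p yp (-(a + b)) z 1 (det p yp) (det a yp + det b yp)
    (det a p - det p b) hpz hypK hWp (hxi.trans hαp) (hvec yp)).1
  rw [show (1 : ℝ) + -1 = 0 by norm_num, mul_zero, add_zero] at Tm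
  rw [sub_self, mul_zero, sub_zero] at Tp
  have hz := hK.ht p z hpz
  rw [abs_le] at hz
  have hkm : k * det p ym < det a ym + det b ym := by
    have := mul_le_mul_of_nonneg_left (hMm p hpP) hk.le
    have := mul_pos hk hMp0
    have := mul_pos hk hMm0
    linarith
  have hkp : k * det p yp < det a yp + det b yp := by
    have := mul_le_mul_of_nonneg_left (hMp p hpP) hk.le
    have := mul_pos hk hMp0
    have := mul_pos hk hMm0
    linarith
  have hαm0 : 0 < det a ym + det b ym := by linarith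
  have hαp0 : 0 < det a yp + det b yp := by linarith
  constructor
  · intro hz0
    refine hitv K hK (p, z) hpz (-(a + b)) k' _ (-k) _ hk' Tm Tp ?_ ?_
    · rw [div_lt_iff₀ hWm]
      have := mul_nonneg hαm0.le hz0
      linarith
    · have : 0 ≤ (det a yp + det b yp) * (1 - z) / det p yp :=
        div_nonneg (mul_nonneg hαp0.le (by linarith)) hWp.le
      linarith
  · intro hz0
    refine hitv K hK (p, z) hpz (-(a + b)) k' _ k _ hk' Tm Tp ?_ ?_
    · have : 0 ≤ (det a ym + det b ym) * (1 + z) / det p ym :=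
        div_nonneg (mul_nonneg hαm0.le (by linarith)) hWm.le
      rw [neg_div]
      linarith
    · rw [lt_div_iff₀ hWp]
      have := mul_nonneg hαp0.le (neg_nonneg.mpr hz0)
      linarith

/-- Small multiples of a vector in a face. -/
theorem small (K : Set V3) (hK : HB K) (ζ : ℝ) (h0 : (((0 : V2), ζ) : V3) ∈ K) (y w v : V2)
    (hy : ((y, ζ) : V3) ∈ K) (hw : ((w, ζ) : V3) ∈ K) (hdet : 0 < det y w) :
    ∃ s₀ : ℝ, 0 < s₀ ∧ ∀ s : ℝ, 0 < s → s ≤ s₀ → ((s • v, ζ) : V3) ∈ K := by
  have bal : ∀ (u : V2) (c : ℝ), ((u, ζ) : V3) ∈ K → |c| ≤ 1 → ((c • u, ζ) : V3) ∈ K := by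
    intro u c hu hc
    rw [abs_le] at hc
    rcases le_total 0 c with h | h
    · have := hK.cvx hu h0 h (by linarith : (0 : ℝ) ≤ 1 - c) (by ring)
      have e : c • ((u, ζ) : V3) + (1 - c) • (((0 : V2), ζ) : V3) = (c • u, ζ) := by
        ext
        · simp
        · simp
        · simp only [Prod.snd_add, Prod.smul_snd, smul_eq_mul]
          ring
      rwa [e] at this
    · have := hK.cvx (hK.symm u ζ hu) h0 (by linarith : (0 : ℝ) ≤ -c)
        (by linarith : (0 : ℝ) ≤ 1 + c) (by ring)
      have e : (-c) • ((-u, ζ) : V3) + (1 + c) • (((0 : V2), ζ) : V3) = (c • u, ζ) := by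
        ext
        · simp
        · simp
        · simp only [Prod.snd_add, Prod.smul_snd, smul_eq_mul]
          ring
      rwa [e] at this
  set B : ℝ := |det v w| + |det y v| + 1 with hB
  have hB0 : 0 < B := by
    have := abs_nonneg (det v w)
    have := abs_nonneg (det y v)
    linarith
  refine ⟨det y w / (2 * B), by positivity, fun s hs hs0 => ?_⟩
  rw [le_div_iff₀ (by positivity)] at hs0
  have k1 := bal y (2 * (s * det v w / det y w)) hy (by
    rw [abs_mul, abs_div, abs_mul, abs_of_pos hs, abs_of_pos hdet, abs_two, ← mul_div_assoc,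
      div_le_one hdet]
    have := mul_nonneg hs.le (abs_nonneg (det y v))
    nlinarith)
  have k2 := bal w (2 * (s * det y v / det y w)) hw (by
    rw [abs_mul, abs_div, abs_mul, abs_of_pos hs, abs_of_pos hdet, abs_two, ← mul_div_assoc,
      div_le_one hdet]
    have := mul_nonneg hs.le (abs_nonneg (det v w))
    nlinarith)
  have k3 := hK.cvx k1 k2 (by norm_num : (0 : ℝ) ≤ 1 / 2) (by norm_num : (0 : ℝ) ≤ 1 / 2)
    (by norm_num)
  have e : (1 / 2 : ℝ) • (((2 * (s * det v w / det y w)) • y, ζ) : V3) +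
      (1 / 2 : ℝ) • (((2 * (s * det y v / det y w)) • w, ζ) : V3) = (s • v, ζ) := by
    have c := cramer y w v
    have c1 := congrArg Prod.fst c
    have c2 := congrArg Prod.snd c
    simp only [Prod.smul_fst, Prod.fst_add, smul_eq_mul] at c1
    simp only [Prod.smul_snd, Prod.snd_add, smul_eq_mul] at c2
    have hne := hdet.ne'
    ext
    · simp only [Prod.fst_add, Prod.smul_fst, smul_eq_mul]
      field_simp
      linear_combination (-1 : ℝ) * c1
    · simp only [Prod.fst_add, Prod.smul_fst, Prod.snd_add, Prod.smul_snd, smul_eq_mul]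
      field_simp
      linear_combination (-1 : ℝ) * c2
    · simp only [Prod.snd_add, Prod.smul_snd, smul_eq_mul]
      ring
  rwa [e] at k3

/-- **H8.** -/
theorem H8 (hP : S_P) (hf : S_fib) (hik : S_IntK) (htc : S_TC) (hitv : S_itv) (hsym : S_sym)
    (hcone : S_cone) (hinw : S_inw) (h1 : S_KL1) (h2 : S_KL2) : S_H8 := by
  intro K hK a b ha hb ha' hb' hD hm hp hy1 hy2 hy3 hy4
  obtain ⟨y1, hy1, hy1a, hy1b, hy1K⟩ := hy1
  obtain ⟨y2, hy2, hy2a, hy2b, hy2K⟩ := hy2
  obtain ⟨y3, hy3, hy3a, hy3b, hy3K⟩ := hy3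
  obtain ⟨y4, hy4, hy4a, hy4b, hy4K⟩ := hy4
  obtain ⟨P1, P2, P3, P4, P5, P6, P7⟩ := hP K hK
  have hneg : ∀ y, y ∉ IP K → -y ∉ IP K := fun y hy h => hy (by
    have := P5 _ h
    rwa [neg_neg] at this)
  have dn1 : ∀ u v : V2, det (-u) v = -det u v := fun u v => by
    simp only [det, Prod.fst_neg, Prod.snd_neg]
    ring
  have dn2 : ∀ u v : V2, det u (-v) = -det u v := fun u v => by
    simp only [det, Prod.fst_neg, Prod.snd_neg]
    ring
  have dsw : ∀ u v : V2, det u v = -det v u := fun u v => by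
    simp only [det]
    ring
  obtain ⟨k1, hk1, s1⟩ := sector hP hitv hcone hinw h1 h2 K hK a b ha hb ha' hb' hD hm
    y3 hy3 hy3a hy3b hy3K y4 hy4 hy4a hy4b hy4K
  obtain ⟨k2, hk2, s2⟩ := sector hP hitv hcone hinw h1 h2 K hK b (-a) hb (P3 a ha) hb'
    (hneg a ha') (by rw [dn2, ← dsw]; exact hD)
    (by rw [sub_neg_eq_add, add_comm]; exact hp)
    (-y1) (hneg _ hy1) (by rw [dn2, ← dsw]; exact hy1b) (by rw [dn1, dn2, neg_neg]; exact hy1a)
    (hK.symm _ _ hy1K)
    (-y2) (hneg _ hy2) (by rw [dn2, ← dsw]; exact hy2b) (by rw [dn1, dn2, neg_neg]; exact hy2a)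
    (hK.symm _ _ hy2K)
  set k : ℝ := min k1 k2 with hk
  have hk0 : 0 < k := lt_min hk1 hk2
  have s1' := s1 k hk0 (min_le_left _ _)
  have s2' := s2 k hk0 (min_le_right _ _)
  set v1 : V2 := -(a + b) with hv1
  set v2 : V2 := -(b + -a) with hv2
  -- the centre points
  have cen : ∀ ζ : ℝ, (ζ = 1 ∨ ζ = -1) → ((v1, -(ζ * k)) : V3) ∈ C K (0, ζ) := by
    have det13 : 0 < det y1 y3 := by
      have e : det a b * det y1 y3 = det y1 b * det a y3 + det a y1 * det b y3 := by
        simp only [det]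
        ring
      have h : 0 < det y1 b * det a y3 + det a y1 * det b y3 :=
        add_pos (mul_pos hy1b hy3a) (mul_pos hy1a hy3b)
      rw [← e] at h
      exact (pos_iff_pos_of_mul_pos h).mp hD
    have det24 : 0 < det y2 y4 := by
      have e : det a b * det y2 y4 = det y2 b * det a y4 + det a y2 * det b y4 := by
        simp only [det]
        ring
      have h : 0 < det y2 b * det a y4 + det a y2 * det b y4 :=
        add_pos (mul_pos hy2b hy4a) (mul_pos hy2a hy4b)
      rw [← e] at h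
      exact (pos_iff_pos_of_mul_pos h).mp hD
    obtain ⟨t1, ht1, r1⟩ := small K hK 1 hK.N y1 y3 v1 hy1K hy3K det13
    obtain ⟨t2, ht2, r2⟩ := small K hK (-1) hK.S y2 y4 v1 hy2K hy4K det24
    obtain ⟨s, hs0, hst1, hst2, hsk⟩ : ∃ s : ℝ, 0 < s ∧ 2 * s ≤ t1 ∧ 2 * s ≤ t2 ∧ s * k < 2 := by
      refine ⟨min (min (t1 / 2) (t2 / 2)) (1 / k), by positivity, ?_, ?_, ?_⟩
      · have := (min_le_left (min (t1 / 2) (t2 / 2)) (1 / k)).trans (min_le_left _ _)
        linarith
      · have := (min_le_left (min (t1 / 2) (t2 / 2)) (1 / k)).trans (min_le_right _ _)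
        linarith
      · have := mul_le_mul_of_nonneg_right (min_le_right (min (t1 / 2) (t2 / 2)) (1 / k)) hk0.le
        rw [one_div_mul_cancel hk0.ne'] at this
        linarith
    have m1 := r1 s hs0 (by linarith)
    have m2 := r2 s hs0 (by linarith)
    have m3 := r1 (2 * s) (by linarith) hst1
    have hI : s • v1 ∈ IP K := by
      have := P7 0 P4 ((2 * s) • v1) ⟨_, m3, rfl⟩ (1 / 2) (by norm_num) (by norm_num)
      rw [smul_zero, zero_add, smul_smul] at this
      rwa [show (1 - 1 / 2 : ℝ) * (2 * s) = s by ring] at this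
    have hsk0 : 0 < s * k := mul_pos hs0 hk0
    intro ζ hζ
    refine ⟨s, hs0, ?_⟩
    have e : ((0 : V2), ζ) + s • ((v1, -(ζ * k)) : V3) = (s • v1, ζ - ζ * (s * k)) := by
      ext
      · simp
      · simp
      · simp only [Prod.snd_add, Prod.smul_snd, smul_eq_mul]
        ring
    rw [e]
    refine hik K hK (s • v1) (-1) _ 1 hI m2 m1 ?_ ?_
    · rcases hζ with h | h
      · rw [h]
        linarith
      · rw [h]
        linarith
    · rcases hζ with h | h
      · rw [h]
        linarith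
      · rw [h]
        linarith
  refine ⟨![(v1, -k), (v1, k), (-v1, -k), (-v1, k), (v2, -k), (v2, k), (-v2, -k), (-v2, k)], ?_⟩
  rintro ⟨p, z⟩ hx hxi
  by_cases hp0 : p = 0
  · subst hp0
    have hz := hK.ht 0 z hx
    rw [abs_le] at hz
    have hz1 : z = 1 ∨ z = -1 := by
      by_contra hcon
      push Not at hcon
      refine hxi (hik K hK 0 (-1) z 1 P4 hK.S hK.N ?_ ?_)
      · exact lt_of_le_of_ne hz.1 (Ne.symm hcon.2)
      · exact lt_of_le_of_ne hz.2 hcon.1
    rcases hz1 with h | h
    · have := cen 1 (Or.inl rfl)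
      rw [one_mul] at this
      rw [h]
      exact ⟨0, this⟩
    · have := cen (-1) (Or.inr rfl)
      rw [neg_mul, one_mul, neg_neg] at this
      rw [h]
      exact ⟨1, this⟩
  · have hnp0 : -p ≠ 0 := neg_ne_zero.mpr hp0
    have hxn := hK.symm p z hx
    rcases le_total 0 (det a p) with h3 | h3
    · rcases le_total (det b p) 0 with h4 | h4
      · have := s1' p z hx hp0 h3 (by rw [dsw]; linarith)
        rcases le_total 0 z with hz | hz
        · exact ⟨0, this.1 hz⟩
        · exact ⟨1, this.2 hz⟩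
      · have := s2' p z hx hp0 h4 (by rw [dn2, ← dsw]; exact h3)
        rcases le_total 0 z with hz | hz
        · exact ⟨4, this.1 hz⟩
        · exact ⟨5, this.2 hz⟩
    · rcases le_total (det b p) 0 with h4 | h4
      · have := s2' (-p) z hxn hnp0 (by rw [dn2]; linarith)
          (by rw [dn1, dn2, neg_neg, dsw]; linarith)
        rcases le_total 0 z with hz | hz
        · have h5 := hsym K hK (-p) v2 z (-k) (this.1 hz)
          rw [neg_neg] at h5
          exact ⟨6, h5⟩
        · have h5 := hsym K hK (-p) v2 z k (this.2 hz)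
          rw [neg_neg] at h5
          exact ⟨7, h5⟩
      · have := s1' (-p) z hxn hnp0 (by rw [dn2]; linarith)
          (by rw [dn1, dsw]; linarith)
        rcases le_total 0 z with hz | hz
        · have h5 := hsym K hK (-p) v1 z (-k) (this.1 hz)
          rw [neg_neg] at h5
          exact ⟨2, h5⟩
        · have h5 := hsym K hK (-p) v1 z k (this.2 hz)
          rw [neg_neg] at h5
          exact ⟨3, h5⟩

end Pool.Agent.H947.HT
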